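import Mathlib

set_option autoImplicit false

/-! Surprise probabilities of reversible chains: the bound `(C / t) √(max 1 (log (1 / π x)))` for
`P_x (τ(y) = t)` fails for every constant `C`. -/

namespace Pool.Agent.Results.MP_e25d14_pr.NotSqrtLog

open Finset

/-- `P` is a transition matrix on the finite set `S`. -/
def IsTransitionMatrix {S : Type} [Fintype S] (P : S → S → ℝ) : Prop :=
  (∀ x y, 0 ≤ P x y) ∧ ∀ x, ∑ y, P x y = 1

/-- `P` is irreducible: every state leads to every state. -/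
def IsIrred {S : Type} (P : S → S → ℝ) : Prop :=
  ∀ x y, Relation.ReflTransGen (fun a b => 0 < P a b) x y

/-- `π` is a probability distribution and is stationary for `P`. -/
def IsStationaryDist {S : Type} [Fintype S] (P : S → S → ℝ) (π : S → ℝ) : Prop :=
  (∀ x, 0 ≤ π x) ∧ ∑ x, π x = 1 ∧ ∀ y, ∑ x, π x * P x y = π y

/-- detailed balance -/
def IsReversible {S : Type} (P : S → S → ℝ) (π : S → ℝ) : Prop :=
  ∀ u v, π u * P u v = π v * P v u

open Classical in
/-- `P_x (τ(y) = t)`: the sum, over all trajectories `ω 0, …, ω t` with `ω 0 = x`, `ω t = y` and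
`ω i ≠ y` for `i < t`, of the probability `P (ω 0) (ω 1) ⋯ P (ω (t-1)) (ω t)`. -/
noncomputable def hitProb {S : Type} [Fintype S] (P : S → S → ℝ) (x y : S) (t : ℕ) : ℝ :=
  ∑ ω : Fin (t + 1) → S,
    if ω 0 = x ∧ ω (Fin.last t) = y ∧ ∀ i : Fin t, ω i.castSucc ≠ y then
      ∏ i : Fin t, P (ω i.castSucc) (ω i.succ)
    else 0

/-! ### conductances on the path -/

/-- conductances: the edge `{i, i+1}` has conductance `r ^ i` -/
def cnd (r n : ℕ) (i j : Fin (n + 1)) : ℝ :=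
  if (j : ℕ) = i + 1 then (r : ℝ) ^ (i : ℕ) else if (i : ℕ) = j + 1 then (r : ℝ) ^ (j : ℕ) else 0

lemma cnd_symm (r n : ℕ) (i j : Fin (n + 1)) : cnd r n i j = cnd r n j i := by
  unfold cnd
  by_cases h1 : (j : ℕ) = i + 1
  · have h2 : ¬ ((i : ℕ) = j + 1) := by omega
    rw [if_pos h1, if_neg h2, if_pos h1]
  · by_cases h2 : (i : ℕ) = j + 1
    · rw [if_neg h1, if_pos h2, if_pos h2]
    · rw [if_neg h1, if_neg h2, if_neg h2, if_neg h1]

lemma cnd_nonneg (r n : ℕ) (i j : Fin (n + 1)) : 0 ≤ cnd r n i j := by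
  unfold cnd; split_ifs <;> positivity

noncomputable def wt (r n : ℕ) (i : Fin (n + 1)) : ℝ := ∑ j, cnd r n i j

lemma wt_ge_next (r n : ℕ) (i : Fin n) :
    (r : ℝ) ^ (i : ℕ) ≤ wt r n i.castSucc := by
  have h : cnd r n i.castSucc i.succ = (r : ℝ) ^ (i : ℕ) := by
    unfold cnd; simp
  rw [← h]
  exact Finset.single_le_sum (f := fun j => cnd r n i.castSucc j)
    (fun j _ => cnd_nonneg r n _ j) (Finset.mem_univ _)

lemma wt_pos (r n : ℕ) (hr : 1 ≤ r) (hn : 1 ≤ n) (i : Fin (n + 1)) : 0 < wt r n i := by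
  have hr' : (0 : ℝ) < r := by exact_mod_cast hr
  by_cases h : (i : ℕ) < n
  · have := wt_ge_next r n ⟨i, h⟩
    have e : (Fin.castSucc ⟨(i : ℕ), h⟩ : Fin (n + 1)) = i := by ext; simp
    rw [e] at this
    exact lt_of_lt_of_le (by positivity) this
  · have hi : (i : ℕ) = n := by omega
    have hlt : (i : ℕ) - 1 < n + 1 := by omega
    have h2 : cnd r n i ⟨(i : ℕ) - 1, hlt⟩ = (r : ℝ) ^ ((i : ℕ) - 1) := by
      unfold cnd
      have h3 : ¬ ((i : ℕ) - 1 = i + 1) := by omega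
      have h4 : (i : ℕ) = (i : ℕ) - 1 + 1 := by omega
      simp only [h3, if_false]
      rw [if_pos h4]
    have h5 : cnd r n i ⟨(i : ℕ) - 1, hlt⟩ ≤ wt r n i :=
      Finset.single_le_sum (f := fun j => cnd r n i j)
        (fun j _ => cnd_nonneg r n _ j) (Finset.mem_univ _)
    rw [h2] at h5
    exact lt_of_lt_of_le (by positivity) h5

/-- `wt i ≤ r^i + r^(i-1)`, in the form `r * wt i ≤ (r + 1) r ^ i` -/
lemma wt_le (r n : ℕ) (hr : 1 ≤ r) (i : Fin (n + 1)) :
    (r : ℝ) * wt r n i ≤ (r + 1) * (r : ℝ) ^ (i : ℕ) := by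
  have hr' : (1 : ℝ) ≤ r := by exact_mod_cast hr
  have key : ∀ j : Fin (n + 1), cnd r n i j ≤
      (if (j : ℕ) = i + 1 then (r : ℝ) ^ (i : ℕ) else 0) +
      (if (j : ℕ) + 1 = i then (r : ℝ) ^ ((i : ℕ) - 1) else 0) := by
    intro j
    unfold cnd
    by_cases h1 : (j : ℕ) = i + 1
    · have h2 : ¬ ((j : ℕ) + 1 = i) := by omega
      rw [if_pos h1, if_pos h1, if_neg h2, add_zero]
    · by_cases h2 : (i : ℕ) = j + 1
      · have h3 : (j : ℕ) + 1 = i := h2.symm
        have h4 : (i : ℕ) - 1 = j := by omega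
        rw [if_neg h1, if_pos h2, if_neg h1, if_pos h3, h4, zero_add]
      · have h3 : ¬ ((j : ℕ) + 1 = i) := fun h => h2 h.symm
        rw [if_neg h1, if_neg h2, if_neg h1, if_neg h3, add_zero]
  have h1 : wt r n i ≤ (r : ℝ) ^ (i : ℕ) + (if 1 ≤ (i : ℕ) then (r : ℝ) ^ ((i : ℕ) - 1) else 0) := by
    unfold wt
    refine (Finset.sum_le_sum fun j _ => key j).trans ?_
    rw [Finset.sum_add_distrib]
    refine add_le_add ?_ ?_
    · rw [← Finset.sum_filter]
      have : ((Finset.univ.filter fun j : Fin (n + 1) => (j : ℕ) = i + 1).card : ℝ) ≤ 1 := by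
        norm_cast
        refine Finset.card_le_one.2 ?_
        intro a ha b hb
        simp only [Finset.mem_filter, Finset.mem_univ, true_and] at ha hb
        ext; omega
      rw [Finset.sum_const, nsmul_eq_mul]
      have h0 : (0 : ℝ) ≤ (r : ℝ) ^ (i : ℕ) := by positivity
      nlinarith
    · by_cases hi : 1 ≤ (i : ℕ)
      · rw [if_pos hi, ← Finset.sum_filter]
        have : ((Finset.univ.filter fun j : Fin (n + 1) => (j : ℕ) + 1 = i).card : ℝ) ≤ 1 := by
          norm_cast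
          refine Finset.card_le_one.2 ?_
          intro a ha b hb
          simp only [Finset.mem_filter, Finset.mem_univ, true_and] at ha hb
          ext; omega
        rw [Finset.sum_const, nsmul_eq_mul]
        have h0 : (0 : ℝ) ≤ (r : ℝ) ^ ((i : ℕ) - 1) := by positivity
        nlinarith
      · rw [if_neg hi]
        refine le_of_eq (Finset.sum_eq_zero fun j _ => ?_)
        rw [if_neg (by omega)]
  by_cases hi : 1 ≤ (i : ℕ)
  · rw [if_pos hi] at h1
    have h2 : (r : ℝ) * (r : ℝ) ^ ((i : ℕ) - 1) = (r : ℝ) ^ (i : ℕ) := by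
      rw [← pow_succ']; congr 1; omega
    nlinarith
  · rw [if_neg hi] at h1
    have h0 : (0 : ℝ) ≤ (r : ℝ) ^ (i : ℕ) := by positivity
    nlinarith

noncomputable def Pm (r n : ℕ) (i j : Fin (n + 1)) : ℝ := cnd r n i j / wt r n i

noncomputable def Zt (r n : ℕ) : ℝ := ∑ i, wt r n i

noncomputable def pm (r n : ℕ) (i : Fin (n + 1)) : ℝ := wt r n i / Zt r n

lemma Zt_pos (r n : ℕ) (hr : 1 ≤ r) (hn : 1 ≤ n) : 0 < Zt r n :=
  Finset.sum_pos (fun i _ => wt_pos r n hr hn i) ⟨0, Finset.mem_univ _⟩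

lemma Pm_trans (r n : ℕ) (hr : 1 ≤ r) (hn : 1 ≤ n) : IsTransitionMatrix (Pm r n) := by
  refine ⟨fun x y => div_nonneg (cnd_nonneg _ _ _ _) (wt_pos r n hr hn x).le, fun x => ?_⟩
  unfold Pm
  rw [← Finset.sum_div]
  exact div_self (wt_pos r n hr hn x).ne'

lemma Pm_rev (r n : ℕ) (hr : 1 ≤ r) (hn : 1 ≤ n) : IsReversible (Pm r n) (pm r n) := by
  intro u v
  unfold pm Pm
  have hu := (wt_pos r n hr hn u).ne'
  have hv := (wt_pos r n hr hn v).ne'
  have hZ := (Zt_pos r n hr hn).ne'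
  rw [cnd_symm r n v u]
  field_simp

lemma pm_stat (r n : ℕ) (hr : 1 ≤ r) (hn : 1 ≤ n) : IsStationaryDist (Pm r n) (pm r n) := by
  refine ⟨fun x => (div_pos (wt_pos r n hr hn x) (Zt_pos r n hr hn)).le, ?_, fun y => ?_⟩
  · unfold pm
    rw [← Finset.sum_div]
    exact div_self (Zt_pos r n hr hn).ne'
  · rw [Finset.sum_congr rfl fun x _ => Pm_rev r n hr hn x y, ← Finset.mul_sum,
      (Pm_trans r n hr hn).2 y, mul_one]

lemma Pm_next_pos (r n : ℕ) (hr : 1 ≤ r) (hn : 1 ≤ n) (i : Fin n) :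
    0 < Pm r n i.castSucc i.succ := by
  unfold Pm
  refine div_pos ?_ (wt_pos r n hr hn _)
  unfold cnd
  have : (0 : ℝ) < r := by exact_mod_cast hr
  simp only [Fin.val_succ, Fin.val_castSucc, if_true]
  positivity

lemma Pm_prev_pos (r n : ℕ) (hr : 1 ≤ r) (hn : 1 ≤ n) (i : Fin n) :
    0 < Pm r n i.succ i.castSucc := by
  unfold Pm
  refine div_pos ?_ (wt_pos r n hr hn _)
  rw [cnd_symm]
  unfold cnd
  have : (0 : ℝ) < r := by exact_mod_cast hr
  simp only [Fin.val_succ, Fin.val_castSucc, if_true]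
  positivity

lemma Pm_irred (r n : ℕ) (hr : 1 ≤ r) (hn : 1 ≤ n) : IsIrred (Pm r n) := by
  have up : ∀ k : ℕ, ∀ hk : k < n + 1,
      Relation.ReflTransGen (fun a b => 0 < Pm r n a b) 0 ⟨k, hk⟩ := by
    intro k
    induction k with
    | zero => intro hk; exact Relation.ReflTransGen.refl
    | succ k ih =>
      intro hk
      refine (ih (by omega)).tail ?_
      have := Pm_next_pos r n hr hn ⟨k, by omega⟩
      exact this
  have down : ∀ k : ℕ, ∀ hk : k < n + 1,
      Relation.ReflTransGen (fun a b => 0 < Pm r n a b) ⟨k, hk⟩ 0 := by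
    intro k
    induction k with
    | zero => intro hk; exact Relation.ReflTransGen.refl
    | succ k ih =>
      intro hk
      refine Relation.ReflTransGen.head ?_ (ih (by omega))
      have := Pm_prev_pos r n hr hn ⟨k, by omega⟩
      exact this
  intro x y
  exact (down x x.2).trans (up y y.2)

lemma Pm_next_ge (r n : ℕ) (hr : 1 ≤ r) (hn : 1 ≤ n) (i : Fin n) :
    (r : ℝ) / (r + 1) ≤ Pm r n i.castSucc i.succ := by
  have hr' : (0 : ℝ) < r := by exact_mod_cast hr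
  unfold Pm
  have h : cnd r n i.castSucc i.succ = (r : ℝ) ^ (i : ℕ) := by
    unfold cnd; simp
  rw [h, div_le_div_iff₀ (by positivity) (wt_pos r n hr hn _)]
  have := wt_le r n hr i.castSucc
  simp only [Fin.val_castSucc] at this
  linarith

/-- the straight trajectory -/
lemma hitProb_ge (r n : ℕ) (hr : 1 ≤ r) (hn : 1 ≤ n) :
    ((r : ℝ) / (r + 1)) ^ n ≤ hitProb (Pm r n) 0 (Fin.last n) n := by
  have hP := Pm_trans r n hr hn
  have h2 : ∀ i : Fin n, i.castSucc ≠ Fin.last n := fun i => (Fin.castSucc_lt_last i).ne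
  have h1 : ∏ i : Fin n, Pm r n i.castSucc i.succ ≤ hitProb (Pm r n) 0 (Fin.last n) n := by
    unfold hitProb
    refine le_trans (le_of_eq ?_) (Finset.single_le_sum (fun ω _ => ?_)
      (Finset.mem_univ (fun i : Fin (n + 1) => i)))
    · rw [if_pos ⟨rfl, rfl, h2⟩]
    · split_ifs
      · exact Finset.prod_nonneg fun i _ => hP.1 _ _
      · exact le_rfl
  refine le_trans ?_ h1
  calc ((r : ℝ) / (r + 1)) ^ n = ∏ _i : Fin n, (r : ℝ) / (r + 1) := by
        rw [Finset.prod_const, Finset.card_univ, Fintype.card_fin]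
    _ ≤ ∏ i : Fin n, Pm r n i.castSucc i.succ :=
      Finset.prod_le_prod (fun _ _ => by positivity) fun i _ => Pm_next_ge r n hr hn i

lemma pow_ge (r : ℕ) (hr : 1 ≤ r) : (1 : ℝ) / 6 ≤ ((r : ℝ) / (r + 1)) ^ (r + 1) := by
  have hr' : (1 : ℝ) ≤ r := by exact_mod_cast hr
  have h1 : (1 + 1 / (r : ℝ)) ^ r ≤ 3 := by
    have h2 : 1 + 1 / (r : ℝ) ≤ Real.exp (1 / r) := by
      have := Real.add_one_le_exp (1 / (r : ℝ)); linarith
    have h3 : (1 + 1 / (r : ℝ)) ^ r ≤ Real.exp (1 / r) ^ r :=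
      pow_le_pow_left₀ (by positivity) h2 r
    rw [← Real.exp_nat_mul] at h3
    have h4 : (r : ℝ) * (1 / r) = 1 := by field_simp
    rw [h4] at h3
    have := Real.exp_one_lt_d9
    linarith
  have e : (r : ℝ) / (r + 1) = (1 + 1 / (r : ℝ))⁻¹ := by field_simp
  rw [pow_succ, e, inv_pow]
  have h5 : (1 + 1 / (r : ℝ)) ≤ 2 := by
    have : 1 / (r : ℝ) ≤ 1 := by rw [div_le_one (by linarith)]; exact hr'
    linarith
  have h6 : (0 : ℝ) < (1 + 1 / (r : ℝ)) ^ r := by positivity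
  have h7 : (1 : ℝ) / 3 ≤ ((1 + 1 / (r : ℝ)) ^ r)⁻¹ := by
    rw [one_div]; exact inv_anti₀ h6 h1
  have h8 : (1 : ℝ) / 2 ≤ (1 + 1 / (r : ℝ))⁻¹ := by
    rw [one_div]; exact inv_anti₀ (by positivity) h5
  calc (1 : ℝ) / 6 = 1 / 3 * (1 / 2) := by norm_num
    _ ≤ _ := mul_le_mul h7 h8 (by norm_num) (by positivity)

lemma Zt_le (r n : ℕ) (hr : 1 ≤ r) : Zt r n ≤ (2 * (n + 1)) * (r : ℝ) ^ n := by
  have hr' : (1 : ℝ) ≤ r := by exact_mod_cast hr
  unfold Zt
  have : ∀ i : Fin (n + 1), wt r n i ≤ 2 * (r : ℝ) ^ n := by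
    intro i
    have h1 := wt_le r n hr i
    have h2 : (r : ℝ) ^ (i : ℕ) ≤ (r : ℝ) ^ n := pow_le_pow_right₀ hr' (by omega)
    have h3 : (r : ℝ) * wt r n i ≤ r * (2 * (r : ℝ) ^ n) := by
      have h0 : (0 : ℝ) ≤ (r : ℝ) ^ (i : ℕ) := by positivity
      nlinarith
    exact le_of_mul_le_mul_left h3 (by linarith)
  refine (Finset.sum_le_sum fun i _ => this i).trans ?_
  rw [Finset.sum_const, Finset.card_univ, Fintype.card_fin, nsmul_eq_mul]
  push_cast
  linarith

lemma log_pm_le (r n : ℕ) (hr : 1 ≤ r) (hn : 1 ≤ n) :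
    Real.log (1 / pm r n 0) ≤ Real.log (2 * (n + 1)) + n * Real.log r := by
  have hr' : (1 : ℝ) ≤ r := by exact_mod_cast hr
  have hZ := Zt_pos r n hr hn
  have h0 := wt_ge_next r n ⟨0, hn⟩
  have e : (Fin.castSucc ⟨0, hn⟩ : Fin (n + 1)) = 0 := rfl
  rw [e] at h0
  simp only [pow_zero] at h0
  have h1 : 1 / pm r n 0 ≤ (2 * (n + 1)) * (r : ℝ) ^ n := by
    unfold pm
    rw [one_div_div, div_le_iff₀ (by linarith)]
    have h2 := Zt_le r n hr
    have h3 : 0 ≤ (2 * ((n : ℝ) + 1)) * (r : ℝ) ^ n := by positivity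
    nlinarith
  have h2 : 0 < 1 / pm r n 0 := by
    unfold pm
    rw [one_div_div]
    exact div_pos hZ (by linarith)
  refine (Real.log_le_log h2 h1).trans (le_of_eq ?_)
  rw [Real.log_mul (by positivity) (by positivity), Real.log_pow]

/-- For every constant `C > 0` there are a finite state space, an irreducible transition matrix
on it that is reversible with respect to its (positive) stationary distribution `π`, two states
`x ≠ y` and a time `t ≥ 1` with `P_x (τ(y) = t) > (C / t) √(max 1 (log (1 / π x)))`. -/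
theorem result : ∀ C : ℝ, 0 < C → ∃ (n : ℕ) (P : Fin n → Fin n → ℝ) (π : Fin n → ℝ)
    (x y : Fin n) (t : ℕ),
    IsTransitionMatrix P ∧ IsIrred P ∧ IsStationaryDist P π ∧ (∀ z, 0 < π z) ∧
    IsReversible P π ∧ x ≠ y ∧ 1 ≤ t ∧
    C / t * Real.sqrt (max 1 (Real.log (1 / π x))) < hitProb P x y t := by
  intro C hC
  obtain ⟨m, hm⟩ := exists_nat_gt (36 * C ^ 2 * 6 + 2)
  have hm2 : (2 : ℝ) < m := by nlinarith [sq_nonneg C]
  have hmN : 2 < m := by exact_mod_cast hm2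
  set n : ℕ := m ^ 2 with hn
  set r : ℕ := n - 1 with hr
  have hn4 : 4 ≤ n := by rw [hn]; nlinarith
  have hr1 : 1 ≤ r := by omega
  have hn1 : 1 ≤ n := by omega
  have hrn : r + 1 = n := by omega
  refine ⟨n + 1, Pm r n, pm r n, 0, Fin.last n, n, Pm_trans r n hr1 hn1, Pm_irred r n hr1 hn1,
    pm_stat r n hr1 hn1, fun z => div_pos (wt_pos r n hr1 hn1 z) (Zt_pos r n hr1 hn1),
    Pm_rev r n hr1 hn1, ?_, hn1, ?_⟩
  · intro h
    have := congrArg Fin.val h
    simp at this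
    omega
  · have h1 := hitProb_ge r n hr1 hn1
    have h2 := pow_ge r hr1
    rw [hrn] at h2
    have h3 : (1 : ℝ) / 6 ≤ hitProb (Pm r n) 0 (Fin.last n) n := h2.trans h1
    refine lt_of_lt_of_le ?_ h3
    -- bound the logarithm
    have hnR : (n : ℝ) = (m : ℝ) ^ 2 := by rw [hn]; push_cast; ring
    have hm0 : (0 : ℝ) < m := by linarith
    have hlogm : Real.log m ≤ m := by
      have := Real.log_le_sub_one_of_pos hm0; linarith
    have hlogr : Real.log r ≤ 2 * m := by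
      have h4 : Real.log r ≤ Real.log n := by
        refine Real.log_le_log (by exact_mod_cast hr1) ?_
        exact_mod_cast (by omega : r ≤ n)
      rw [hnR, Real.log_pow] at h4
      push_cast at h4
      linarith
    have hlog2 : Real.log (2 * ((n : ℝ) + 1)) ≤ 2 * (n : ℝ) + 1 := by
      have := Real.log_le_sub_one_of_pos (show (0 : ℝ) < 2 * ((n : ℝ) + 1) by positivity)
      linarith
    have h5 := log_pm_le r n hr1 hn1
    have hlog : Real.log (1 / pm r n 0) ≤ 5 * (m : ℝ) ^ 3 := by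
      have h6 : (n : ℝ) * Real.log r ≤ (n : ℝ) * (2 * m) :=
        mul_le_mul_of_nonneg_left hlogr (by positivity)
      have h7 : (n : ℝ) * (2 * m) = 2 * (m : ℝ) ^ 3 := by rw [hnR]; ring
      have h8 : 2 * (n : ℝ) + 1 ≤ 3 * (m : ℝ) ^ 3 := by
        rw [hnR]
        have h9 : (m : ℝ) ^ 2 * 2 ≤ (m : ℝ) ^ 3 := by
          have : (m : ℝ) ^ 3 = (m : ℝ) ^ 2 * m := by ring
          rw [this]
          exact mul_le_mul_of_nonneg_left hm2.le (by positivity)
        have h10 : (4 : ℝ) ≤ (m : ℝ) ^ 2 := by nlinarith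
        linarith
      linarith
    have hmax : max 1 (Real.log (1 / pm r n 0)) ≤ 5 * (m : ℝ) ^ 3 := by
      refine max_le ?_ hlog
      have : (1 : ℝ) ≤ (m : ℝ) ^ 3 := one_le_pow₀ (by linarith)
      linarith
    have hsq : Real.sqrt (max 1 (Real.log (1 / pm r n 0))) ≤ Real.sqrt (5 * (m : ℝ) ^ 3) :=
      Real.sqrt_le_sqrt hmax
    have hnpos : (0 : ℝ) < n := by exact_mod_cast hn1
    have h11 : Real.sqrt (5 * (m : ℝ) ^ 3) < (m : ℝ) ^ 2 / (6 * C) := by
      rw [Real.sqrt_lt' (by positivity), div_pow, lt_div_iff₀ (by positivity)]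
      have h12 : (m : ℝ) ^ 2 * (m : ℝ) ^ 2 = (m : ℝ) ^ 3 * m := by ring
      have h13 : (0 : ℝ) < (m : ℝ) ^ 3 := by positivity
      have h14 : 5 * (6 * C) ^ 2 < (m : ℝ) := by nlinarith
      calc 5 * (m : ℝ) ^ 3 * (6 * C) ^ 2 = (m : ℝ) ^ 3 * (5 * (6 * C) ^ 2) := by ring
        _ < (m : ℝ) ^ 3 * m := mul_lt_mul_of_pos_left h14 h13
        _ = ((m : ℝ) ^ 2) ^ 2 := by ring
    calc C / (n : ℝ) * Real.sqrt (max 1 (Real.log (1 / pm r n 0)))
        ≤ C / (n : ℝ) * Real.sqrt (5 * (m : ℝ) ^ 3) :=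
          mul_le_mul_of_nonneg_left hsq (by positivity)
      _ < C / (n : ℝ) * ((m : ℝ) ^ 2 / (6 * C)) := mul_lt_mul_of_pos_left h11 (by positivity)
      _ = 1 / 6 := by rw [hnR]; field_simp

end Pool.Agent.Results.MP_e25d14_pr.NotSqrtLog
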